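import Pool.Agent.T9h29.HC.Fin3

set_option autoImplicit false

/-!
# The cubic moment of Hardy's function with a shift: power saving for almost all shifts

Let `Z(t) = e^(iθ(t)) ζ(1/2 + it)` be Hardy's function. We show, unconditionally, that the mean square over the shifts
`0 ≤ c ≤ U` of the shifted cubic moment is smaller than `T²` by the factor `U`, up to powers of `log T`:

`∫_0^U |∫_0^T Z(t) Z(t + c)² dt|² dc ≤ C T² (log T)^A`    for `T ≥ 3` and `1 ≤ U ≤ T^(1/2)`.

(The bound which follows from the fourth moment is `U T²` times a power of `log T`.) So, for every `η ≥ 0` and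
`ε > 0` and all large `T`, the shifts `c` in `[0, T^(1/2)]` with `|∫_0^T Z(t) Z(t + c)² dt| > T^(1 - η)` form a set of
measure at most `T^(2η + ε)`. For `0 < θ ≤ 1/2` and `η < θ/2` these are few of the shifts in `[0, T^θ]`: the bound
asked for at the shift `c = 0`, with an exponent smaller than `1`, is true for almost all shifts from a very short
interval, with every exponent larger than `1 - θ/2`; for almost all shifts in `[0, T^(1/2)]` the conjectured exponent
`3/4 + ε` is reached.

Proof: on a dyadic interval `Z(t + c)² = |ζ(1/2 + i(t + c))|²` is a Dirichlet series over the reduced fractions (smooth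
approximate functional equation). The part with `p q > U` (numerator times denominator) is small as an operator from
the functions of `t` to the functions of `c` (large sieve inequalities in `t` and in `c`). For the part with
`p q ≤ U` the first moments of `Z(t) (p/q)^(it)` are estimated by the first and the second derivative test, with a
lower bound for the second derivative of the Riemann-Siegel theta function; then again a large sieve in `c`.
-/

namespace Pool.Agent.Results.MP_56c76e_nt.AlmostAllShifts

open Complex MeasureTheory Set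

noncomputable section

/-- `e^(iθ(t)) = π^(-it/2) Γ(1/4 + it/2) / |Γ(1/4 + it/2)|` -/
def phase (t : ℝ) : ℂ :=
  (Real.pi : ℂ) ^ (-(I * t / 2)) * Complex.Gamma (1 / 4 + I * t / 2) / ‖Complex.Gamma (1 / 4 + I * t / 2)‖

/-- Hardy's function `Z(t) = e^(iθ(t)) ζ(1/2 + it)` (as a complex number, which is real) -/
def Z (t : ℝ) : ℂ := phase t * riemannZeta (1 / 2 + I * t)

/-- The cubic moment of Hardy's function with the shift `c`. -/
def moment (T c : ℝ) : ℂ := ∫ t in (0 : ℝ)..T, Z t * Z (t + c) ^ 2

lemma phase_eq (t : ℝ) : phase t = Pool.Agent.R304.SG.phase t := by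
  have hpi : (Real.pi : ℂ) ≠ 0 := by exact_mod_cast Real.pi_ne_zero
  have h : (Real.pi : ℂ) ^ (-(I * t / 2)) = cexp (-(I * (t / 2) * Real.log Real.pi)) := by
    rw [Complex.cpow_def_of_ne_zero hpi, ← Complex.ofReal_log Real.pi_pos.le]
    congr 1
    ring
  unfold phase Pool.Agent.R304.SG.phase
  rw [h]
  ring

lemma Z_eq (t : ℝ) : Z t = Pool.Agent.R304.SG.Z t := by
  unfold Z Pool.Agent.R304.SG.Z
  rw [phase_eq]

lemma moment_eq (T c : ℝ) : moment T c =
    ∫ t in (0 : ℝ)..T, Pool.Agent.R304.SG.Z t * Pool.Agent.R304.SG.Z (t + c) ^ 2 := by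
  unfold moment
  refine intervalIntegral.integral_congr fun t _ => ?_
  simp only [Z_eq]

/-- The mean square over the shifts `c ∈ [0, U]`, `1 ≤ U ≤ T^(1/2)`, of the cubic moment of Hardy's function with the
shift `c`, and the resulting bound for the measure of the set of shifts `c ∈ [0, T^(1/2)]` for which this moment is
larger than `T^(1 - η)`. -/
theorem result :
    (∃ (C : ℝ) (A : ℕ), ∀ T U : ℝ, 3 ≤ T → 1 ≤ U → U ≤ T ^ (1 / 2 : ℝ) →
      ∫ c in (0 : ℝ)..U, ‖moment T c‖ ^ 2 ≤ C * T ^ 2 * Real.log T ^ A) ∧
    ∀ η ε : ℝ, 0 < ε → ∃ T₀ : ℝ, ∀ T : ℝ, T₀ ≤ T →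
      volume {c | c ∈ Icc 0 (T ^ (1 / 2 : ℝ)) ∧ T ^ (1 - η) < ‖moment T c‖} ≤
        ENNReal.ofReal (T ^ (2 * η + ε)) := by
  have h := Pool.Agent.T9h29.HC.fin3
  simp only [← moment_eq] at h
  exact h

end

end Pool.Agent.Results.MP_56c76e_nt.AlmostAllShifts
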